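import Pool.Agent.Helper76.P13.StD
import Pool.Agent.Helper84.P13.D1

/-!
# Project P13 (levels `13^n`), module Tri: triangular system of symbols modulo 13

Models: `Pool/Agent/Helper25/TK7/M_Tri.lean`, `Pool/Agent/Helper63/P11/M_Tri.lean`.
-/

set_option autoImplicit false

namespace Pool.Agent.Helper22.P13

open Pool.Agent.Helper76.P13D Pool.Agent.Helper84.P13
open Pool.Agent.Helper28.WK (SymP)
open Pool.Agent.Helper2.P13 (pf13 kP Rel13 S13Ex)

/-- The value only depends on the leading form. -/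
private theorem lead_Tri {r s : ℕ} (O : Module.End (ZMod 13) (Fn13 (13 ^ r) (13 ^ s)))
    (k : ℤ) (hO : Lw O k) (F L : Fn13 (13 ^ r) (13 ^ s)) (h : F - L ∈ Wd13 (k - 1)) :
    O F = O L := by
  have h1 := hO _ _ h
  have h2 : k - 1 - k = -1 := by ring
  rw [h2] at h1
  have h3 := (low0 r s).2.2.2.2.2.2.2.2.2.2.2.2.2 _ h1
  rw [map_sub] at h3
  exact sub_eq_zero.1 h3

/-- the value of one monomial -/
private def tm (vc : ℕ → ℕ → ZMod 13) (j s B m : ℕ) : ZMod 13 :=
  if s + m ≤ B then vc j (B - (s + m)) else 0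

private theorem tm_z {vc : ℕ → ℕ → ZMod 13} (h3 : ∀ j x, ¬ 6 ∣ x → vc j x = 0) {j s B m : ℕ}
    (h : ¬ (s + m ≤ B) ∨ ¬ 6 ∣ (B - (s + m))) : tm vc j s B m = 0 := by
  unfold tm
  rcases h with h | h
  · rw [if_neg h]
  · rw [h3 _ _ h, ite_self]

private theorem tm_1 {vc : ℕ → ℕ → ZMod 13} (h0 : ∀ j, vc j 0 = 1) {j s B m : ℕ}
    (h : s + m = B) : tm vc j s B m = 1 := by
  unfold tm
  rw [if_pos h.le, h, Nat.sub_self, h0]

/-- the coefficients of the second leading parts -/
private def cg (f : Fin 4) : ZMod 13 := ![0, 9, 5, 12] f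

private def Ec (c c' m : ℕ) : ZMod 13 :=
  tpM c 0 * ((qOM c' 0 m : ℤ) : ZMod 13) + tpM c 1 * ((qOM c' 1 m : ℤ) : ZMod 13) +
    tpM c 2 * ((qOM c' 2 m : ℤ) : ZMod 13) + tpM c 3 * ((qOM c' 3 m : ℤ) : ZMod 13)

private def Fc (c' m : ℕ) : ZMod 13 :=
  cg 0 * ((qOM c' 0 m : ℤ) : ZMod 13) + cg 1 * ((qOM c' 1 m : ℤ) : ZMod 13) +
    cg 2 * ((qOM c' 2 m : ℤ) : ZMod 13) + cg 3 * ((qOM c' 3 m : ℤ) : ZMod 13)

/-- the correction of the order -/
private def ep (c : ℕ) : ℕ := if 6 ≤ c ∧ c ≤ 12 then 1 else 0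

set_option maxRecDepth 100000 in
private theorem Etab0 : ∀ c : Fin 13, ∀ c' : Fin 14, ∀ m : Fin 14,
    ((2 * m.val + nOM c.val) % 12 ≠ (2 * bM c.val + nOM c'.val) % 12 ∨
      bM c.val + ep c'.val < m.val + ep c.val) ∨
    (m.val + ep c.val = bM c.val + ep c'.val ∧
      (c'.val = c.val ∨ (c.val = 1 ∧ c'.val = 13))) ∨
    Ec c.val c'.val m.val = 0 := by
  decide

private theorem Etab {c c' m : ℕ} (hc : c < 13) (hc' : c' < 14) (hm : m < 14) :
    ((2 * m + nOM c) % 12 ≠ (2 * bM c + nOM c') % 12 ∨ bM c + ep c' < m + ep c) ∨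
    (m + ep c = bM c + ep c' ∧ (c' = c ∨ (c = 1 ∧ c' = 13))) ∨ Ec c c' m = 0 :=
  Etab0 ⟨c, hc⟩ ⟨c', hc'⟩ ⟨m, hm⟩

private theorem nO_le : ∀ c < 14, nOM c < 14 := by decide

private theorem bM_le : ∀ c < 14, bM c ≤ 1 := by decide

private theorem rh_eq (c i j : ℕ) : rhM c i j = ep c + i + j := rfl

private theorem dg_eq (c i j : ℕ) :
    dgM c i j = (aM c + i + 13 * j) + (bM c + i + j) := by
  unfold dgM
  ring

private theorem big {n n' b e e' m i j i' j' B : ℕ}
    (hdeg : n + 2 * i + 14 * j = n' + 2 * i' + 14 * j') (hB : B = b + i + j)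
    (h : (2 * m + n) % 12 ≠ (2 * b + n') % 12 ∨ b + e' < m + e)
    (hcon : e + i + j ≤ e' + i' + j') :
    ¬ (i' + j' + m ≤ B) ∨ ¬ 6 ∣ (B - (i' + j' + m)) := by
  omega

private theorem big2 {b e e' m i j i' j' B : ℕ}
    (hB : B = b + i + j) (h : m + e = b + e')
    (hcon : e + i + j < e' + i' + j') :
    ¬ (i' + j' + m ≤ B) ∨ ¬ 6 ∣ (B - (i' + j' + m)) := by
  omega

/-- TRI. -/
theorem hTri (hd : TLed) (hx : S13Ex) (hi : TItr) (hf : TTrf) : TTri := by
  intro r s c i j hc hr hs
  obtain ⟨hf1, vc, v0, v3, hf2⟩ := hf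
  obtain ⟨F, hRel, hF⟩ := hd r s c i j hc hr hs
  obtain ⟨G, hG, hGF⟩ := hx (ZMod 13) inferInstance r s F hRel
  obtain ⟨A, hA⟩ : ∃ A, A = aM c + i + 13 * j := ⟨_, rfl⟩
  obtain ⟨B, hB⟩ : ∃ B, B = bM c + i + j := ⟨_, rfl⟩
  have hdg : dgM c i j = A + B := by rw [dg_eq, hA, hB]
  have tp_eq : ∀ f : Fin 4, (ldM c i j f : Fn13 (13 ^ r) (13 ^ s)) =
      tpM c f • bb13 A B + (if c = 13 then cg f • bb13 (A + 1) (B - 1) else 0) := by
    intro f
    rw [hA, hB]
    rfl
  rw [← hA] at hr
  rw [← hB] at hs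
  have hB1 : c = 13 → 1 ≤ B := by
    rintro rfl
    have : bM 13 = 1 := rfl
    omega
  have hbb : (bb13 A B : Fn13 (13 ^ r) (13 ^ s)) ∈ Wd13 ((A : ℤ) + B) := (bb r s).1 A B hr hs
  -- the second function
  have hz : ¬ (A + 1 < 13 ^ r) → (bb13 (A + 1) (B - 1) : Fn13 (13 ^ r) (13 ^ s)) = 0 := by
    intro h
    have : NeZero (13 ^ r) := ⟨by positivity⟩
    funext x y
    have h1 : x.val < A + 1 := lt_of_lt_of_le (ZMod.val_lt x) (not_lt.1 h)
    show ((x.val.choose (A + 1) * y.val.choose (B - 1) : ℕ) : ZMod 13) = 0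
    rw [Nat.choose_eq_zero_of_lt h1, zero_mul, Nat.cast_zero]
  have hbb7 : c = 13 → (bb13 (A + 1) (B - 1) : Fn13 (13 ^ r) (13 ^ s)) ∈ Wd13 ((A : ℤ) + B) := by
    intro h
    by_cases h1 : A + 1 < 13 ^ r
    · have h2 := (bb r s).1 (A + 1) (B - 1) h1 (by omega)
      have h3 : ((A + 1 : ℕ) : ℤ) + ((B - 1 : ℕ) : ℤ) = (A : ℤ) + B := by
        have := hB1 h
        omega
      rw [h3] at h2
      exact h2
    · rw [hz h1]
      exact Submodule.zero_mem _
  have htp : ∀ f : Fin 4, (ldM c i j f : Fn13 (13 ^ r) (13 ^ s)) ∈ Wd13 ((A : ℤ) + B) := by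
    intro f
    rw [tp_eq]
    refine Submodule.add_mem _ (Submodule.smul_mem _ _ hbb) ?_
    split_ifs with h
    · exact Submodule.smul_mem _ _ (hbb7 h)
    · exact Submodule.zero_mem _
  have hdz : ((A + B : ℕ) : ℤ) = (A : ℤ) + B := by push_cast; ring
  have hF' : ∀ f : Fin 4, F f - ldM c i j f ∈ Wd13 ((A : ℤ) + B - 1) := by
    intro f
    have h := hF f
    rw [hdg, hdz] at h
    exact h
  have hFd : ∀ f : Fin 4, F f ∈ Wd13 ((A : ℤ) + B) := by
    intro f
    have h1 : F f = (F f - ldM c i j f) + ldM c i j f := by rw [sub_add_cancel]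
    rw [h1]
    exact Submodule.add_mem _ ((low0 r s).2.2.2.2.1 _ _ (by omega) (hF' f)) (htp f)
  have hI := hi r s G (A + B) hG (fun f => by rw [hGF f, hdz]; exact hFd f)
  have hV : ∀ (c' i' j' A' B' : ℕ) (f : Fin 4), c' ≤ 13 → A' < 13 ^ r → B' < 13 ^ s →
      A' + B' = dgM c' i' j' →
      ((MoM c' f.val * QoM ^ i' * LoM ^ j' : Module.End (ZMod 13) (Fn13 (13 ^ r) (13 ^ s)))
        (bb13 A' B')) 0 0 = ∑ m ∈ Finset.range (nOM c' + 1),
          ((qOM c' f.val m : ℤ) : ZMod 13) * tm vc j' (i' + j') B' m := by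
    intro c' i' j' A' B' f hc' hA' hB' h
    rw [hf2 r s c' i' j' A' B' f hc' hA' hB' h]
    refine Finset.sum_congr rfl fun m _ => ?_
    unfold tm
    split_ifs
    · rfl
    · rw [mul_zero]
  have hterm : ∀ (c' i' j' : ℕ) (f : Fin 4), c' ≤ 13 → dgM c' i' j' = A + B →
      ((MoM c' f.val * QoM ^ i' * LoM ^ j' : Module.End (ZMod 13) (Fn13 (13 ^ r) (13 ^ s)))
        (ldM c i j f)) 0 0 = tpM c f * ∑ m ∈ Finset.range (nOM c' + 1),
          ((qOM c' f.val m : ℤ) : ZMod 13) * tm vc j' (i' + j') B m +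
        (if c = 13 ∧ A + 1 < 13 ^ r then cg f * ∑ m ∈ Finset.range (nOM c' + 1),
          ((qOM c' f.val m : ℤ) : ZMod 13) * tm vc j' (i' + j') (B - 1) m else 0) := by
    intro c' i' j' f hc' h
    rw [tp_eq, map_add, map_smul, Pi.add_apply, Pi.add_apply, Pi.smul_apply, Pi.smul_apply,
      smul_eq_mul, hV c' i' j' A B f hc' hr hs h.symm]
    congr 1
    by_cases h7 : c = 13
    · by_cases h1 : A + 1 < 13 ^ r
      · rw [if_pos h7, if_pos ⟨h7, h1⟩, map_smul, Pi.smul_apply, Pi.smul_apply, smul_eq_mul,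
          hV c' i' j' (A + 1) (B - 1) f hc' h1 (by omega) (by have := hB1 h7; omega)]
      · rw [if_pos h7, if_neg (fun h' => h1 h'.2), hz h1, smul_zero, map_zero]
        rfl
    · rw [if_neg h7, if_neg (fun h' => h7 h'.1), map_zero]
      rfl
  have hval : ∀ c' i' j' : ℕ, c' ≤ 13 → dgM c' i' j' = A + B →
      evM (13 ^ r) G c' i' j' = ∑ m ∈ Finset.range (nOM c' + 1),
        Ec c c' m * tm vc j' (i' + j') B m +
        (if c = 13 ∧ A + 1 < 13 ^ r then ∑ m ∈ Finset.range (nOM c' + 1),
          Fc c' m * tm vc j' (i' + j') (B - 1) m else 0) := by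
    intro c' i' j' hc' h
    have h1 : evM (13 ^ r) G c' i' j' = ∑ f : Fin 4,
        ((MoM c' f.val * QoM ^ i' * LoM ^ j' : Module.End (ZMod 13) (Fn13 (13 ^ r) (13 ^ s)))
          (ldM c i j f)) 0 0 := by
      rw [(hI c' i' j' hc').2 h]
      refine Finset.sum_congr rfl fun f _ => ?_
      rw [hGF f]
      have h1 := hf1 r s c' i' j' f hc'
      rw [h, hdz] at h1
      rw [lead_Tri _ _ h1 (F f) (ldM c i j f) (hF' f)]
    rw [h1, Finset.sum_congr rfl fun f _ => hterm c' i' j' f hc' h, Finset.sum_add_distrib]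
    congr 1
    · simp only [Finset.mul_sum]
      rw [Finset.sum_comm]
      refine Finset.sum_congr rfl fun m _ => ?_
      rw [Fin.sum_univ_four]
      unfold Ec
      show tpM c 0 * (((qOM c' 0 m : ℤ) : ZMod 13) * tm vc j' (i' + j') B m) +
        tpM c 1 * (((qOM c' 1 m : ℤ) : ZMod 13) * tm vc j' (i' + j') B m) +
        tpM c 2 * (((qOM c' 2 m : ℤ) : ZMod 13) * tm vc j' (i' + j') B m) +
        tpM c 3 * (((qOM c' 3 m : ℤ) : ZMod 13) * tm vc j' (i' + j') B m) = _
      ring
    · split_ifs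
      · simp only [Finset.mul_sum]
        rw [Finset.sum_comm]
        refine Finset.sum_congr rfl fun m _ => ?_
        rw [Fin.sum_univ_four]
        unfold Fc
        show cg 0 * (((qOM c' 0 m : ℤ) : ZMod 13) * tm vc j' (i' + j') (B - 1) m) +
          cg 1 * (((qOM c' 1 m : ℤ) : ZMod 13) * tm vc j' (i' + j') (B - 1) m) +
          cg 2 * (((qOM c' 2 m : ℤ) : ZMod 13) * tm vc j' (i' + j') (B - 1) m) +
          cg 3 * (((qOM c' 3 m : ℤ) : ZMod 13) * tm vc j' (i' + j') (B - 1) m) = _
        ring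
      · exact Finset.sum_const_zero
  refine ⟨G, hG, ?_, ?_⟩
  · rw [hval c i j hc hdg]
    have hab := bM_le c (by omega)
    have h1 : ∑ m ∈ Finset.range (nOM c + 1), Ec c c m * tm vc j (i + j) B m =
        Ec c c (bM c) := by
      rw [Finset.sum_eq_single (bM c)]
      · rw [tm_1 v0 (by omega), mul_one]
      · intro m _ hm
        rw [tm_z v3 (by omega), mul_zero]
      · intro h
        exact absurd (Finset.mem_range.2 (by unfold nOM; omega)) h
    rw [h1]
    by_cases h7 : c = 13
    · subst h7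
      have b7 : bM 13 = 1 := rfl
      split_ifs with h2
      · have h3 : ∑ m ∈ Finset.range (nOM 13 + 1), Fc 13 m * tm vc j (i + j) (B - 1) m =
            Fc 13 0 := by
          rw [Finset.sum_eq_single 0]
          · rw [tm_1 v0 (by omega), mul_one]
          · intro m _ hm
            rw [tm_z v3 (by omega), mul_zero]
          · intro h
            exact absurd (Finset.mem_range.2 (by omega)) h
        rw [h3]
        decide
      · rw [add_zero]
        decide
    · rw [if_neg (fun h' => h7 h'.1), add_zero]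
      have h2 : ∀ c < 13, Ec c c (bM c) ≠ 0 := by decide
      exact h2 c (by omega)
  · intro c' i' j' hc' hr' hne
    rw [hdg, rh_eq, rh_eq]
    rcases lt_trichotomy (dgM c' i' j') (A + B) with h | h | h
    · exact Or.inl h
    · refine Or.inr ⟨h, ?_⟩
      by_contra hcon
      apply hne
      have hdeg : A + B = (aM c' + i' + 13 * j') + (bM c' + i' + j') := by
        rw [← h, dg_eq]
      rw [hval c' i' j' hc' h]
      by_cases h7 : c = 13
      · subst h7
        have a7 : aM 13 = 12 := rfl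
        have b7 : bM 13 = 1 := rfl
        have e7 : ep 13 = 0 := rfl
        rw [a7] at hA
        rw [b7] at hB
        rw [e7] at hcon
        have hsp : (B < i' + j') ∨ (c' = 1 ∧ i' + j' = i + j ∧ A + 1 < 13 ^ r) := by
          interval_cases c'
          · have q1 : aM 0 = 0 := rfl
            have q2 : bM 0 = 0 := rfl
            rw [q1, q2] at hdeg
            omega
          · have q1 : aM 1 = 1 := rfl
            have q2 : bM 1 = 0 := rfl
            have q3 : ep 1 = 0 := rfl
            rw [q1] at hdeg hr'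
            rw [q2] at hdeg
            rw [q3] at hcon
            omega
          · have q1 : aM 2 = 2 := rfl
            have q2 : bM 2 = 0 := rfl
            rw [q1, q2] at hdeg
            omega
          · have q1 : aM 3 = 4 := rfl
            have q2 : bM 3 = 0 := rfl
            rw [q1, q2] at hdeg
            omega
          · have q1 : aM 4 = 5 := rfl
            have q2 : bM 4 = 0 := rfl
            have q3 : ep 4 = 0 := rfl
            rw [q1, q2] at hdeg
            rw [q3] at hcon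
            omega
          · have q1 : aM 5 = 7 := rfl
            have q2 : bM 5 = 0 := rfl
            have q3 : ep 5 = 0 := rfl
            rw [q1, q2] at hdeg
            rw [q3] at hcon
            omega
          · have q1 : aM 6 = 3 := rfl
            have q2 : bM 6 = 1 := rfl
            rw [q1, q2] at hdeg
            omega
          · have q1 : aM 7 = 5 := rfl
            have q2 : bM 7 = 1 := rfl
            rw [q1, q2] at hdeg
            omega
          · have q1 : aM 8 = 7 := rfl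
            have q2 : bM 8 = 1 := rfl
            rw [q1, q2] at hdeg
            omega
          · have q1 : aM 9 = 9 := rfl
            have q2 : bM 9 = 1 := rfl
            rw [q1, q2] at hdeg
            omega
          · have q1 : aM 10 = 9 := rfl
            have q2 : bM 10 = 1 := rfl
            rw [q1, q2] at hdeg
            omega
          · have q1 : aM 11 = 11 := rfl
            have q2 : bM 11 = 1 := rfl
            rw [q1, q2] at hdeg
            omega
          · have q1 : aM 12 = 11 := rfl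
            have q2 : bM 12 = 1 := rfl
            rw [q1, q2] at hdeg
            omega
          · rw [a7, b7] at hdeg
            rw [e7] at hcon
            omega
        rcases hsp with h1 | ⟨rfl, h1, h2⟩
        · have k1 : ∑ m ∈ Finset.range (nOM c' + 1), Ec 13 c' m * tm vc j' (i' + j') B m = 0 :=
            Finset.sum_eq_zero fun m _ => by rw [tm_z v3 (by omega), mul_zero]
          have k2 : ∑ m ∈ Finset.range (nOM c' + 1), Fc c' m * tm vc j' (i' + j') (B - 1) m = 0 :=
            Finset.sum_eq_zero fun m _ => by rw [tm_z v3 (by omega), mul_zero]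
          rw [k1, k2, ite_self, add_zero]
        · have n1 : nOM 1 = 1 := rfl
          rw [if_pos ⟨rfl, h2⟩, n1]
          simp only [Finset.sum_range_succ, Finset.sum_range_zero, zero_add]
          have t0 : tm vc j' (i' + j') B 0 = 0 := tm_z v3 (by omega)
          have t1 : tm vc j' (i' + j') B 1 = 1 := tm_1 v0 (by omega)
          have t2 : tm vc j' (i' + j') (B - 1) 0 = 1 := tm_1 v0 (by omega)
          have t3 : tm vc j' (i' + j') (B - 1) 1 = 0 := tm_z v3 (by omega)
          rw [t0, t1, t2, t3]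
          decide
      · rw [if_neg (fun h' => h7 h'.1), add_zero]
        refine Finset.sum_eq_zero fun m hm => ?_
        have hm8 : m < 14 := by
          have h1 := Finset.mem_range.1 hm
          have h2 := nO_le c' (by omega)
          omega
        have hdg2 : nOM c + 2 * i + 14 * j = nOM c' + 2 * i' + 14 * j' := by
          have h3 : dgM c i j = dgM c' i' j' := by rw [hdg, h]
          exact h3
        push Not at hcon
        obtain ⟨hcon1, hcon2⟩ := hcon
        rcases Etab (c := c) (c' := c') (by omega) (by omega) hm8 with h1 | ⟨h1, h2⟩ | h1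
        · rw [tm_z v3 (big hdg2 hB h1 hcon1), mul_zero]
        · have h3 : ep c + i + j < ep c' + i' + j' := by
            rcases hcon1.lt_or_eq with h4 | h4
            · exact h4
            · exfalso
              have h5 := hcon2 h4.symm
              rcases h2 with h2 | h2
              · exact h5.1 h2
              · exact h5.2 h2.1 h2.2
          rw [tm_z v3 (big2 hB h1 h3), mul_zero]
        · rw [h1, zero_mul]
    · exact absurd ((hI c' i' j' hc').1 h) hne

end Pool.Agent.Helper22.P13
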